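import Pool.Agent.H525.SH.Stm
import Pool.Agent.H525.NF.Mert

set_option autoImplicit false

/-! # COND: the densities satisfy the conditions of the linear sieve (helper249 for helper525) -/

namespace Pool.Agent.H249.SH

open Finset NumberField Filter Topology
open Pool.Agent.W23.DC Pool.Agent.Y882 Pool.Agent.Y677.KU
open Pool.Agent.H525.SH

open scoped Classical

theorem bonf {ι : Type} (s : Finset ι) (x : ι → ℝ) (h : ∀ i ∈ s, 0 ≤ x i ∧ x i ≤ 1) :
    0 ≤ ∏ i ∈ s, (1 - x i) ∧ ∏ i ∈ s, (1 - x i) ≤ 1 ∧ 0 ≤ ∑ i ∈ s, x i ∧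
      1 - ∑ i ∈ s, x i ≤ ∏ i ∈ s, (1 - x i) ∧
      ∏ i ∈ s, (1 - x i) ≤ 1 - ∑ i ∈ s, x i + (∑ i ∈ s, x i) ^ 2 := by
  induction s using Finset.induction_on with
  | empty => simp
  | insert a s ha ih =>
    obtain ⟨h1, h2, h3, h4, h5⟩ := ih fun i hi => h i (mem_insert_of_mem hi)
    obtain ⟨h6, h7⟩ := h a (mem_insert_self a s)
    rw [prod_insert ha, sum_insert ha]
    generalize ∏ i ∈ s, (1 - x i) = P at *
    generalize ∑ i ∈ s, x i = S at *
    have h8 : 0 ≤ 1 - x a := by linarith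
    refine ⟨by positivity, by nlinarith, by linarith, ?_, ?_⟩
    · have h9 := mul_le_mul_of_nonneg_left h4 h8
      nlinarith [mul_nonneg h6 h3]
    · have h9 := mul_le_mul_of_nonneg_left h5 h8
      nlinarith [mul_nonneg h6 h3, mul_nonneg h6 (sq_nonneg S), sq_nonneg (x a)]

section

variable (K : Type) [Field K] [NumberField K]

theorem card_one (hPAF : S_PAF) (p : ℕ) (hp : p.Prime) :
    Nat.card (𝓞 K →+* ZMod p) = ((PA K p).filter (fun P => Ideal.absNorm P = p)).card := by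
  rw [Pool.Agent.H525.NF.card_homs p hp]
  refine Nat.subtype_card _ fun P => ?_
  rw [mem_filter]
  constructor
  · exact fun h => h.2
  · intro h
    refine ⟨((hPAF K p hp).1 P).2 ⟨?_, ?_⟩, h⟩
    · apply Ideal.isPrime_of_irreducible_absNorm
      rw [h]
      exact hp
    · have h1 := Ideal.absNorm_mem P
      rwa [h] at h1

theorem key (hPAF : S_PAF) (p : ℕ) (hp : p.Prime) :
    0 ≤ hh K p ∧ hh K p ≤ 1 ∧ hh K p ≤ (Module.finrank ℚ K : ℝ) / p ∧
      |p * hh K p - (Nat.card (𝓞 K →+* ZMod p) : ℝ)| ≤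
        ((Module.finrank ℚ K : ℝ) + (Module.finrank ℚ K : ℝ) ^ 2) * (1 / p) := by
  obtain ⟨-, hf, hcard, -⟩ := hPAF K p hp
  have hp0 : (0 : ℝ) < p := by exact_mod_cast hp.pos
  have hp1 : (1 : ℝ) ≤ p := by exact_mod_cast hp.one_le
  obtain ⟨d, hd⟩ : ∃ d : ℝ, d = (Module.finrank ℚ K : ℝ) := ⟨_, rfl⟩
  rw [← hd]
  have hcard' : ((PA K p).card : ℝ) ≤ d := by
    rw [hd]
    exact_mod_cast hcard
  have hd0 : 0 ≤ d := by
    rw [hd]
    positivity
  have hx : ∀ P ∈ PA K p, 0 ≤ 1 / (Ideal.absNorm P : ℝ) ∧ 1 / (Ideal.absNorm P : ℝ) ≤ 1 / p := by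
    intro P hP
    obtain ⟨f, hf1, hf2⟩ := hf P hP
    refine ⟨by positivity, ?_⟩
    rw [hf2]
    apply one_div_le_one_div_of_le hp0
    push_cast
    calc (p : ℝ) = (p : ℝ) ^ 1 := (pow_one _).symm
      _ ≤ (p : ℝ) ^ f := pow_le_pow_right₀ hp1 hf1
  have hp1' : (1 : ℝ) / p ≤ 1 := by
    rw [div_le_one hp0]
    exact hp1
  obtain ⟨b1, b2, b3, b4, b5⟩ := bonf (PA K p) (fun P => 1 / (Ideal.absNorm P : ℝ))
    fun P hP => ⟨(hx P hP).1, (hx P hP).2.trans hp1'⟩
  have hS : ∑ P ∈ PA K p, 1 / (Ideal.absNorm P : ℝ) ≤ d / p := by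
    calc ∑ P ∈ PA K p, 1 / (Ideal.absNorm P : ℝ) ≤ ∑ _P ∈ PA K p, 1 / (p : ℝ) :=
          sum_le_sum fun P hP => (hx P hP).2
      _ = (PA K p).card * (1 / (p : ℝ)) := by rw [sum_const, nsmul_eq_mul]
      _ ≤ d * (1 / p) := by gcongr
      _ = d / p := by ring
  have hhd : hh K p = 1 - ∏ P ∈ PA K p, (1 - 1 / (Ideal.absNorm P : ℝ)) := rfl
  have hle : hh K p ≤ d / p := by
    rw [hhd]
    linarith
  refine ⟨by rw [hhd]; linarith, by rw [hhd]; linarith, hle, ?_⟩
  -- the sum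
  have hsum : p * ∑ P ∈ PA K p, 1 / (Ideal.absNorm P : ℝ) =
      (Nat.card (𝓞 K →+* ZMod p) : ℝ) +
        ∑ P ∈ (PA K p).filter (fun P => ¬ Ideal.absNorm P = p), (p : ℝ) * (1 / (Ideal.absNorm P : ℝ)) := by
    rw [mul_sum, ← sum_filter_add_sum_filter_not (PA K p) (fun P => Ideal.absNorm P = p)]
    congr 1
    rw [card_one K hPAF p hp]
    have e : ∀ P ∈ (PA K p).filter (fun P => Ideal.absNorm P = p),
        (p : ℝ) * (1 / (Ideal.absNorm P : ℝ)) = 1 := by
      intro P hP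
      rw [(mem_filter.1 hP).2, mul_one_div_cancel hp0.ne']
    rw [sum_congr rfl e, sum_const, nsmul_eq_mul, mul_one]
  have hR0 : 0 ≤ ∑ P ∈ (PA K p).filter (fun P => ¬ Ideal.absNorm P = p),
      (p : ℝ) * (1 / (Ideal.absNorm P : ℝ)) := sum_nonneg fun P _ => by positivity
  have hR1 : ∑ P ∈ (PA K p).filter (fun P => ¬ Ideal.absNorm P = p),
      (p : ℝ) * (1 / (Ideal.absNorm P : ℝ)) ≤ d * (1 / p) := by
    have e : ∀ P ∈ (PA K p).filter (fun P => ¬ Ideal.absNorm P = p),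
        (p : ℝ) * (1 / (Ideal.absNorm P : ℝ)) ≤ 1 / p := by
      intro P hP
      obtain ⟨hP1, hP2⟩ := mem_filter.1 hP
      obtain ⟨f, hf1, hf2⟩ := hf P hP1
      have hf3 : 2 ≤ f := by
        by_contra hlt
        have hf4 : f = 1 := by omega
        rw [hf4, pow_one] at hf2
        exact hP2 hf2
      rw [hf2, Nat.cast_pow, mul_one_div, div_le_div_iff₀ (pow_pos hp0 f) hp0]
      calc (p : ℝ) * p = (p : ℝ) ^ 2 := by ring
        _ ≤ (p : ℝ) ^ f := pow_le_pow_right₀ hp1 hf3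
        _ = 1 * (p : ℝ) ^ f := (one_mul _).symm
    calc _ ≤ ∑ _P ∈ (PA K p).filter (fun P => ¬ Ideal.absNorm P = p), 1 / (p : ℝ) := sum_le_sum e
      _ = (((PA K p).filter (fun P => ¬ Ideal.absNorm P = p)).card : ℝ) * (1 / (p : ℝ)) := by
          rw [sum_const, nsmul_eq_mul]
      _ ≤ d * (1 / p) := by
          have e2 : (((PA K p).filter (fun P => ¬ Ideal.absNorm P = p)).card : ℝ) ≤ d :=
            le_trans (by exact_mod_cast card_filter_le _ _) hcard'
          gcongr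
  have hup : p * hh K p ≤ p * ∑ P ∈ PA K p, 1 / (Ideal.absNorm P : ℝ) := by
    apply mul_le_mul_of_nonneg_left _ hp0.le
    rw [hhd]
    linarith
  have hlow : p * ∑ P ∈ PA K p, 1 / (Ideal.absNorm P : ℝ) - d ^ 2 * (1 / p) ≤ p * hh K p := by
    have e1 : (∑ P ∈ PA K p, 1 / (Ideal.absNorm P : ℝ)) ^ 2 ≤ (d / p) ^ 2 :=
      pow_le_pow_left₀ b3 hS 2
    have e2 : ∑ P ∈ PA K p, 1 / (Ideal.absNorm P : ℝ) - (d / p) ^ 2 ≤ hh K p := by
      rw [hhd]
      linarith
    have e3 := mul_le_mul_of_nonneg_left e2 hp0.le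
    have e4 : (p : ℝ) * (d / p) ^ 2 = d ^ 2 * (1 / p) := by
      field_simp
    rw [mul_sub, e4] at e3
    exact e3
  have hdp : 0 ≤ d ^ 2 * (1 / (p : ℝ)) := by positivity
  have hdp' : 0 ≤ d * (1 / (p : ℝ)) := by positivity
  rw [abs_le, add_mul]
  constructor
  · rw [hsum] at hlow
    linarith
  · rw [hsum] at hup
    linarith

end

/-- the average of `1 / p` tends to zero -/
theorem avg_inv : Tendsto (fun N : ℕ => (∑ p ∈ (range (N + 1)).filter Nat.Prime, 1 / (p : ℝ)) /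
    (Nat.primeCounting N : ℝ)) atTop (𝓝 0) := by
  have hpi : Tendsto (fun N : ℕ => (Nat.primeCounting N : ℝ)) atTop atTop :=
    tendsto_natCast_atTop_atTop.comp Nat.tendsto_primeCounting
  rw [Metric.tendsto_atTop']
  intro ε hε
  obtain ⟨M, hM⟩ := exists_nat_gt (2 / ε)
  have hM0 : (0 : ℝ) < M := lt_trans (by positivity) hM
  have h1 := hpi.eventually_gt_atTop (2 * (M + 1) / ε)
  obtain ⟨N0, hN0⟩ := eventually_atTop.1 h1
  refine ⟨N0, fun N hN => ?_⟩
  have h2 := hN0 N hN.le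
  have hpos : (0 : ℝ) < Nat.primeCounting N := lt_trans (by positivity) h2
  have hnn : 0 ≤ ∑ p ∈ (range (N + 1)).filter Nat.Prime, 1 / (p : ℝ) :=
    sum_nonneg fun p _ => by positivity
  rw [Real.dist_eq, sub_zero, abs_of_nonneg (by positivity), div_lt_iff₀ hpos]
  have hcard : (((range (N + 1)).filter Nat.Prime).card : ℝ) = Nat.primeCounting N := by
    rw [Nat.primeCounting, Nat.primeCounting', Nat.count_eq_card_filter_range]
  have h3 : ∀ p ∈ (range (N + 1)).filter Nat.Prime,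
      1 / (p : ℝ) ≤ (if p ∈ range (M + 1) then 1 else 0) + ε / 2 := by
    intro p hp
    have hpp := (mem_filter.1 hp).2
    have hp1 : (1 : ℝ) ≤ p := by exact_mod_cast hpp.one_le
    by_cases hpM : p ∈ range (M + 1)
    · rw [if_pos hpM]
      have : 1 / (p : ℝ) ≤ 1 := by
        rw [div_le_one (by linarith)]
        exact hp1
      linarith
    · rw [if_neg hpM, zero_add]
      rw [mem_range, not_lt] at hpM
      have h4 : (M : ℝ) ≤ p := by
        exact_mod_cast (by omega : M ≤ p)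
      rw [div_le_iff₀ (by linarith)]
      rw [div_lt_iff₀ hε] at hM
      nlinarith
  have h4 : ∑ p ∈ (range (N + 1)).filter Nat.Prime, 1 / (p : ℝ) ≤
      (M + 1) + ε / 2 * Nat.primeCounting N := by
    refine (sum_le_sum h3).trans ?_
    rw [sum_add_distrib, sum_const, nsmul_eq_mul, hcard]
    have h5 : ∑ p ∈ (range (N + 1)).filter Nat.Prime, (if p ∈ range (M + 1) then (1 : ℝ) else 0) ≤
        M + 1 := by
      rw [sum_ite_mem, sum_const, nsmul_eq_mul, mul_one]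
      have h6 : (((range (N + 1)).filter Nat.Prime ∩ range (M + 1)).card : ℝ) ≤ (range (M + 1)).card :=
        by exact_mod_cast card_le_card inter_subset_right
      rw [card_range] at h6
      push_cast at h6
      exact h6
    linarith
  rw [div_lt_iff₀ hε] at h2
  nlinarith

theorem t_COND : S_PAF → S_COND := by
  intro hPAF K _ _ ε₁ β η hε₁ hε₁1 hβ hη
  have hr : Tendsto (fun N : ℕ => (∑ p ∈ (range (N + 1)).filter Nat.Prime, (p : ℝ) * hh K p) /
      (Nat.primeCounting N : ℝ)) atTop (𝓝 1) := by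
    have h1 := Pool.Agent.H484R2.pit K
    have h2 := avg_inv.const_mul ((Module.finrank ℚ K : ℝ) + (Module.finrank ℚ K : ℝ) ^ 2)
    rw [mul_zero] at h2
    have h3 : Tendsto (fun N : ℕ => (∑ p ∈ (range (N + 1)).filter Nat.Prime,
        ((p : ℝ) * hh K p - (Nat.card (𝓞 K →+* ZMod p) : ℝ))) / (Nat.primeCounting N : ℝ))
        atTop (𝓝 0) := by
      refine squeeze_zero_norm (fun N => ?_) h2
      rw [norm_div, Real.norm_of_nonneg (Nat.cast_nonneg (Nat.primeCounting N)), mul_div_assoc']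
      apply div_le_div_of_nonneg_right _ (Nat.cast_nonneg _)
      rw [mul_sum]
      refine norm_sum_le_of_le _ fun p hp => ?_
      rw [Real.norm_eq_abs]
      exact (key K hPAF p (mem_filter.1 hp).2).2.2.2
    have h4 := h1.add h3
    rw [add_zero] at h4
    refine h4.congr fun N => ?_
    rw [← add_div, ← sum_add_distrib]
    congr 1
    refine sum_congr rfl fun p _ => ?_
    ring
  obtain ⟨Y0, hY0⟩ := mer_of_avg (fun p => (p : ℝ) * hh K p) hr ε₁ β η hε₁ hβ hη
  have hprime : ∀ (Y : ℕ) (ζ : ℝ), ∀ p ∈ PZ Y ζ, p.Prime := by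
    intro Y ζ p hp
    unfold PZ at hp
    exact (mem_filter.1 hp).2.1
  refine ⟨Y0, fun Y hY => ⟨fun p hp => ?_, fun p hp => ?_, fun p hp hκ => ?_, ?_⟩⟩
  · exact (key K hPAF p (hprime _ _ p hp)).1
  · exact (key K hPAF p (hprime _ _ p hp)).2.1
  · have hpp := hprime _ _ p hp
    refine (key K hPAF p hpp).2.2.1.trans ?_
    have h2 : (2 : ℝ) ≤ p := by exact_mod_cast hpp.two_le
    exact div_le_div_of_nonneg_left (Nat.cast_nonneg _) (by linarith) (by linarith)
  · intro a b ha hab hb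
    have h1 := hY0 Y hY a b ha hab hb
    have h2 : ∑ p ∈ (pr Y ε₁ β).filter (fun p => a ≤ tt Y p ∧ tt Y p < b), (p : ℝ) * hh K p / p =
        ∑ p ∈ (pr Y ε₁ β).filter (fun p => a ≤ tt Y p ∧ tt Y p < b), hh K p := by
      refine sum_congr rfl fun p hp => ?_
      have h3 : p.Prime := by
        have h4 := (mem_filter.1 hp).1
        unfold pr at h4
        exact (mem_filter.1 h4).2.1
      have h4 : (p : ℝ) ≠ 0 := by exact_mod_cast h3.ne_zero
      rw [mul_div_assoc, mul_comm, div_mul_cancel₀ _ h4]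
    rw [h2] at h1
    exact h1

end Pool.Agent.H249.SH
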